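import Pool.Agent.Helper27.SE.Explicit

set_option autoImplicit false

namespace Pool.Agent.Results.MP_d38fbf_co.SphereEnergy

/-- **Additive energy of finite subsets of spheres in `ℝ³`, with explicit bounds.**

Let `A` be a finite subset of a sphere of `ℝ³` with centre `c` and radius `r` (any centre, any
radius) and `N = |A|`. Then the number of quadruples `(a₁, a₂, a₃, a₄)` in `A⁴` with
`a₁ + a₂ = a₃ + a₄` is at most `10 ^ 4 * N ^ 2 * exp (6 * √(log N))`, and at most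
`10 ^ 4 * exp (9 / ε) * N ^ (2 + ε)` for every `ε > 0`. -/
theorem result (A : Finset (EuclideanSpace ℝ (Fin 3))) (c : EuclideanSpace ℝ (Fin 3)) (r : ℝ)
    (hA : ∀ a ∈ A, dist a c = r) :
    (({p : EuclideanSpace ℝ (Fin 3) × EuclideanSpace ℝ (Fin 3) ×
          EuclideanSpace ℝ (Fin 3) × EuclideanSpace ℝ (Fin 3) |
        p.1 ∈ A ∧ p.2.1 ∈ A ∧ p.2.2.1 ∈ A ∧ p.2.2.2 ∈ A ∧
          p.1 + p.2.1 = p.2.2.1 + p.2.2.2}.ncard : ℕ) : ℝ)
      ≤ 10 ^ 4 * (A.card : ℝ) ^ 2 * Real.exp (6 * Real.sqrt (Real.log A.card)) ∧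
    ∀ ε : ℝ, 0 < ε →
      (({p : EuclideanSpace ℝ (Fin 3) × EuclideanSpace ℝ (Fin 3) ×
            EuclideanSpace ℝ (Fin 3) × EuclideanSpace ℝ (Fin 3) |
          p.1 ∈ A ∧ p.2.1 ∈ A ∧ p.2.2.1 ∈ A ∧ p.2.2.2 ∈ A ∧
            p.1 + p.2.1 = p.2.2.1 + p.2.2.2}.ncard : ℕ) : ℝ)
        ≤ 10 ^ 4 * Real.exp (9 / ε) * (A.card : ℝ) ^ (2 + ε) := by
  classical
  have h2 : {p : EuclideanSpace ℝ (Fin 3) × EuclideanSpace ℝ (Fin 3) ×
            EuclideanSpace ℝ (Fin 3) × EuclideanSpace ℝ (Fin 3) |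
          p.1 ∈ A ∧ p.2.1 ∈ A ∧ p.2.2.1 ∈ A ∧ p.2.2.2 ∈ A ∧
            p.1 + p.2.1 = p.2.2.1 + p.2.2.2} =
      (((A ×ˢ A ×ˢ A ×ˢ A).filter (fun p => p.1 + p.2.1 = p.2.2.1 + p.2.2.2) :
        Finset (EuclideanSpace ℝ (Fin 3) × EuclideanSpace ℝ (Fin 3) ×
            EuclideanSpace ℝ (Fin 3) × EuclideanSpace ℝ (Fin 3))) : Set _) := by
    ext p
    simp only [Set.mem_ofPred_eq, Finset.coe_filter, Finset.mem_product]
    tauto
  rw [h2, Set.ncard_coe_finset]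
  have h := Pool.Agent.Helper27.SE.explicit_sphere A c r hA
  unfold Pool.Agent.Helper27.SE.en at h
  have h3 : (((((A ×ˢ A ×ˢ A ×ˢ A).filter (fun p => p.1 + p.2.1 = p.2.2.1 + p.2.2.2) :
        Finset (EuclideanSpace ℝ (Fin 3) × EuclideanSpace ℝ (Fin 3) ×
            EuclideanSpace ℝ (Fin 3) × EuclideanSpace ℝ (Fin 3))).card : ℕ) : ℝ))
      ≤ 10 ^ 4 * (A.card : ℝ) ^ 2 * Real.exp (6 * Real.sqrt (Real.log A.card)) := by
    convert h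
  exact ⟨h3, fun ε hε => Pool.Agent.Helper27.SE.explicit_eps A.card _ ε hε h3⟩

end Pool.Agent.Results.MP_d38fbf_co.SphereEnergy
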